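import Pool.Agent.Helper70.MM.Goals3

open MeasureTheory Set Metric ProbabilityTheory
open scoped ENNReal RealInnerProductSpace Topology
open Pool.Agent.Results.MP_91ee6f_gt

namespace Pool.Agent.Helper65.MM

open Pool.Agent.Helper70.MM

/-- `θ_λ(s)` -/
noncomputable def th (ℓ lam s : ℝ) : ℝ :=
  Real.exp (-(lam * s ^ 2)) + Real.exp (-(lam * (ℓ - s) ^ 2))

/-- `λ(t) = 1/(2t²)` -/
noncomputable def la (t : ℝ) : ℝ := (2 * t ^ 2)⁻¹

lemma la_nonneg (t : ℝ) : 0 ≤ la t := by unfold la; positivity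

lemma la_meas : Measurable la := by unfold la; fun_prop

lemma th_pos (ℓ lam s : ℝ) : 0 < th ℓ lam s := by unfold th; positivity

lemma th_le {ℓ lam s : ℝ} (h : 0 ≤ lam) : th ℓ lam s ≤ 2 := by
  unfold th
  have h1 : Real.exp (-(lam * s ^ 2)) ≤ 1 := Real.exp_le_one_iff.2 (by
    have : 0 ≤ lam * s ^ 2 := by positivity
    linarith)
  have h2 : Real.exp (-(lam * (ℓ - s) ^ 2)) ≤ 1 := Real.exp_le_one_iff.2 (by
    have : 0 ≤ lam * (ℓ - s) ^ 2 := by positivity
    linarith)
  linarith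

lemma th_symm (ℓ lam s : ℝ) : th ℓ lam (ℓ - s) = th ℓ lam s := by
  unfold th
  rw [sub_sub_cancel, add_comm]

lemma th_meas (ℓ s : ℝ) : Measurable (fun t => th ℓ (la t) s) := by
  unfold th
  have := la_meas
  fun_prop

lemma RR_eq (ℓ lam s : ℝ) : RR ℓ lam s = th ℓ lam s / th ℓ lam 0 := by
  unfold RR th
  simp

/-- the potential as a function of the coordinates -/
noncomputable def Pf (ℓ : ℝ) {n : ℕ} (x : Fin n → ℝ) : ℝ :=
  ∫ t, ∏ i, th ℓ (la t) (x i) ∂(gaussianReal 0 1)

lemma int_prod (ℓ : ℝ) {n : ℕ} (S : Finset (Fin n)) (x : Fin n → ℝ) :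
    Integrable (fun t => ∏ i ∈ S, th ℓ (la t) (x i)) (gaussianReal 0 1) := by
  refine Integrable.of_bound (C := 2 ^ S.card) ?_ (Filter.Eventually.of_forall fun t => ?_)
  · exact (Finset.measurable_prod S fun i _ => th_meas ℓ (x i)).aestronglyMeasurable
  · have h0 : 0 ≤ ∏ i ∈ S, th ℓ (la t) (x i) := Finset.prod_nonneg fun i _ => (th_pos _ _ _).le
    rw [Real.norm_of_nonneg h0]
    calc ∏ i ∈ S, th ℓ (la t) (x i) ≤ ∏ i ∈ S, (2 : ℝ) :=
          Finset.prod_le_prod (fun i _ => (th_pos _ _ _).le) (fun i _ => th_le (la_nonneg t))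
      _ = 2 ^ S.card := by rw [Finset.prod_const]

lemma PV_eq (n : ℕ) (ℓ : ℝ) (x : En n) : PV n ℓ x = Pf ℓ (fun i => x i) := by
  have hT : ∀ T : Finset (Fin n), Real.exp (-dist x (vert n ℓ T)) =
      ∫ t, ∏ i, (if i ∈ T then Real.exp (-(la t * (ℓ - x i) ^ 2))
        else Real.exp (-(la t * (x i) ^ 2))) ∂(gaussianReal 0 1) := by
    intro T
    rw [← Pool.Agent.Helper67.MaxMeas.integral_gaussian_inv_sq dist_nonneg]
    refine integral_congr_ae (Filter.Eventually.of_forall fun t => ?_)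
    have h1 : dist x (vert n ℓ T) ^ 2 = ∑ i, (if i ∈ T then (ℓ - x i) ^ 2 else (x i) ^ 2) := by
      rw [EuclideanSpace.dist_eq, Real.sq_sqrt (Finset.sum_nonneg fun i _ => by positivity)]
      refine Finset.sum_congr rfl fun i _ => ?_
      rw [Real.dist_eq, sq_abs]
      have h2 : (vert n ℓ T) i = if i ∈ T then ℓ else 0 := rfl
      rw [h2]
      split_ifs
      · ring
      · ring
    simp only
    rw [h1]
    have h3 : ∀ i : Fin n, (if i ∈ T then Real.exp (-(la t * (ℓ - x i) ^ 2))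
        else Real.exp (-(la t * (x i) ^ 2))) =
        Real.exp (-(la t * (if i ∈ T then (ℓ - x i) ^ 2 else (x i) ^ 2))) := by
      intro i
      split_ifs <;> rfl
    rw [Finset.prod_congr rfl (fun i _ => h3 i), ← Real.exp_sum]
    congr 1
    rw [Finset.sum_neg_distrib, ← Finset.mul_sum]
    unfold la
    rw [div_eq_inv_mul]
  unfold PV Pf
  rw [Finset.sum_congr rfl (fun T _ => hT T), ← integral_finsetSum]
  · refine integral_congr_ae (Filter.Eventually.of_forall fun t => ?_)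
    simp only
    unfold th
    have h4 := Finset.prod_add (fun i : Fin n => Real.exp (-(la t * (ℓ - x i) ^ 2)))
      (fun i : Fin n => Real.exp (-(la t * (x i) ^ 2))) Finset.univ
    rw [Finset.powerset_univ] at h4
    have h5 : ∏ i, (Real.exp (-(la t * (x i) ^ 2)) + Real.exp (-(la t * (ℓ - x i) ^ 2))) =
        ∏ i, (Real.exp (-(la t * (ℓ - x i) ^ 2)) + Real.exp (-(la t * (x i) ^ 2))) :=
      Finset.prod_congr rfl fun i _ => add_comm _ _
    rw [h5, h4]
    refine Finset.sum_congr rfl fun T _ => ?_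
    rw [← Finset.prod_mul_prod_compl T, Finset.compl_eq_univ_sdiff]
    congr 1
    · exact Finset.prod_congr rfl fun i hi => if_pos hi
    · exact Finset.prod_congr rfl fun i hi => if_neg (Finset.mem_sdiff.1 hi).2
  · intro T _
    refine Integrable.of_bound (C := 1) ?_ (Filter.Eventually.of_forall fun t => ?_)
    · refine (Finset.measurable_prod _ fun i _ => ?_).aestronglyMeasurable
      have := la_meas
      split_ifs
      · fun_prop
      · fun_prop
    · rw [Real.norm_eq_abs, Finset.abs_prod]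
      refine Finset.prod_le_one (fun i _ => abs_nonneg _) fun i _ => ?_
      have h6 := la_nonneg t
      split_ifs
      · rw [abs_of_pos (Real.exp_pos _), Real.exp_le_one_iff]
        have : 0 ≤ la t * (ℓ - x i) ^ 2 := by positivity
        linarith
      · rw [abs_of_pos (Real.exp_pos _), Real.exp_le_one_iff]
        have : 0 ≤ la t * (x i) ^ 2 := by positivity
        linarith

lemma RR_nonneg (ℓ lam s : ℝ) : 0 ≤ RR ℓ lam s := by
  rw [RR_eq]
  exact div_nonneg (th_pos _ _ _).le (th_pos _ _ _).le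

lemma RR_zero (ℓ lam : ℝ) : RR ℓ lam 0 = 1 := by
  rw [RR_eq, div_self (th_pos _ _ _).ne']

/-- one step: the smallest nonzero coordinate is replaced by `0` -/
lemma step (hS : SCX) {n : ℕ} {ℓ : ℝ} (hℓ : 0 < ℓ) (x : Fin n → ℝ) (hx0 : ∀ i, 0 ≤ x i)
    (hx : ∀ i, x i ≤ ℓ / 2) (i0 : Fin n) (hi0 : 0 < x i0)
    (hmin : ∀ i, x i ≠ 0 → x i0 ≤ x i)
    (hE : Pf ℓ (0 : Fin n → ℝ) ≤ Pf ℓ (Function.update (0 : Fin n → ℝ) i0 (x i0))) :
    Pf ℓ (Function.update x i0 0) ≤ Pf ℓ x := by
  obtain ⟨Λ, hΛ, h1, h2, h3⟩ := hS ℓ (x i0) hℓ hi0 (hx i0)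
  set E := Finset.univ.erase i0 with hEdef
  set Wf : ℝ → ℝ := fun lam => ∏ i ∈ E, RR ℓ lam (x i) with hWf
  have hsplit : ∀ (y : Fin n → ℝ) (t : ℝ), ∏ i, th ℓ (la t) (y i) =
      th ℓ (la t) (y i0) * ∏ i ∈ E, th ℓ (la t) (y i) := fun y t =>
    (Finset.mul_prod_erase Finset.univ _ (Finset.mem_univ i0)).symm
  have hWt : ∀ lam, ∏ i ∈ E, th ℓ lam (x i) = (∏ i ∈ E, th ℓ lam 0) * Wf lam := by
    intro lam
    rw [hWf, ← Finset.prod_mul_distrib]
    refine Finset.prod_congr rfl fun i _ => ?_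
    rw [RR_eq, mul_div_cancel₀ _ (th_pos _ _ _).ne']
  have hW0 : 0 ≤ Wf Λ := Finset.prod_nonneg fun i _ => RR_nonneg _ _ _
  have hcase : ∀ i, x i = 0 ∨ (x i0 ≤ x i ∧ x i ≤ ℓ / 2) := by
    intro i
    by_cases h : x i = 0
    · exact Or.inl h
    · exact Or.inr ⟨hmin i h, hx i⟩
  have hle : ∀ lam, 0 ≤ lam → lam ≤ Λ → Wf Λ ≤ Wf lam := by
    intro lam hl0 hl
    refine Finset.prod_le_prod (fun i _ => RR_nonneg _ _ _) fun i _ => ?_
    rcases hcase i with h | h
    · rw [h, RR_zero, RR_zero]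
    · exact (h3 (x i) h.1 h.2).1 lam hl0 hl
  have hge : ∀ lam, Λ ≤ lam → Wf lam ≤ Wf Λ := by
    intro lam hl
    refine Finset.prod_le_prod (fun i _ => RR_nonneg _ _ _) fun i _ => ?_
    rcases hcase i with h | h
    · rw [h, RR_zero, RR_zero]
    · exact (h3 (x i) h.1 h.2).2 lam hl
  have hpt : ∀ t : ℝ, Wf Λ * ((th ℓ (la t) (x i0) - th ℓ (la t) 0) * ∏ i ∈ E, th ℓ (la t) 0) ≤
      (th ℓ (la t) (x i0) - th ℓ (la t) 0) * ∏ i ∈ E, th ℓ (la t) (x i) := by
    intro t
    rw [hWt]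
    have hp : 0 ≤ ∏ i ∈ E, th ℓ (la t) 0 := Finset.prod_nonneg fun i _ => (th_pos _ _ _).le
    have hpos := th_pos ℓ (la t) 0
    rcases le_total (la t) Λ with h | h
    · have h4 := h1 (la t) (la_nonneg t) h
      rw [RR_eq, le_div_iff₀ hpos, one_mul] at h4
      have h5 := hle (la t) (la_nonneg t) h
      have h6 : 0 ≤ (th ℓ (la t) (x i0) - th ℓ (la t) 0) * ∏ i ∈ E, th ℓ (la t) 0 :=
        mul_nonneg (by linarith) hp
      nlinarith [mul_le_mul_of_nonneg_left h5 h6]
    · have h4 := h2 (la t) h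
      rw [RR_eq, div_le_iff₀ hpos, one_mul] at h4
      have h5 := hge (la t) h
      have h6 : 0 ≤ (th ℓ (la t) 0 - th ℓ (la t) (x i0)) * ∏ i ∈ E, th ℓ (la t) 0 :=
        mul_nonneg (by linarith) hp
      nlinarith [mul_le_mul_of_nonneg_left h5 h6]
  -- integrability
  have hi1 : ∀ (y : Fin n → ℝ) (s : ℝ),
      Integrable (fun t => th ℓ (la t) s * ∏ i ∈ E, th ℓ (la t) (y i)) (gaussianReal 0 1) := by
    intro y s
    have h := int_prod ℓ Finset.univ (Function.update y i0 s)
    refine h.congr (Filter.Eventually.of_forall fun t => ?_)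
    simp only
    rw [hsplit, Function.update_self]
    congr 1
    refine Finset.prod_congr rfl fun i hi => ?_
    rw [Function.update_of_ne (Finset.ne_of_mem_erase hi)]
  have hPf : ∀ (y : Fin n → ℝ) (s : ℝ), Pf ℓ (Function.update y i0 s) =
      ∫ t, th ℓ (la t) s * ∏ i ∈ E, th ℓ (la t) (y i) ∂(gaussianReal 0 1) := by
    intro y s
    unfold Pf
    refine integral_congr_ae (Filter.Eventually.of_forall fun t => ?_)
    simp only
    rw [hsplit, Function.update_self]
    congr 1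
    refine Finset.prod_congr rfl fun i hi => ?_
    rw [Function.update_of_ne (Finset.ne_of_mem_erase hi)]
  have hx' : Pf ℓ x = Pf ℓ (Function.update x i0 (x i0)) := by rw [Function.update_eq_self]
  have h0' : Pf ℓ (0 : Fin n → ℝ) = Pf ℓ (Function.update (0 : Fin n → ℝ) i0 0) := by
    congr 1
    ext i
    by_cases h : i = i0
    · rw [h, Function.update_self]; rfl
    · rw [Function.update_of_ne h]
  rw [h0', hPf, hPf] at hE
  rw [hx', hPf, hPf, ← sub_nonneg, ← integral_sub (hi1 x _) (hi1 x _)]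
  rw [← sub_nonneg, ← integral_sub (hi1 0 _) (hi1 0 _)] at hE
  have h7 : ∫ t, Wf Λ * ((th ℓ (la t) (x i0) - th ℓ (la t) 0) * ∏ i ∈ E, th ℓ (la t) 0)
      ∂(gaussianReal 0 1) ≤ ∫ t, (th ℓ (la t) (x i0) * ∏ i ∈ E, th ℓ (la t) (x i) -
        th ℓ (la t) 0 * ∏ i ∈ E, th ℓ (la t) (x i)) ∂(gaussianReal 0 1) := by
    refine integral_mono ?_ ((hi1 x _).sub (hi1 x _)) fun t => ?_
    · refine Integrable.const_mul ?_ _
      have h8 := (hi1 0 (x i0)).sub (hi1 0 0)
      refine h8.congr (Filter.Eventually.of_forall fun t => ?_)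
      simp only [Pi.sub_apply, Pi.zero_apply]
      ring
    · have h9 := hpt t
      simp only
      rw [← sub_mul]
      exact h9
  refine le_trans ?_ h7
  rw [integral_const_mul]
  refine mul_nonneg hW0 ?_
  refine le_trans hE (le_of_eq ?_)
  refine integral_congr_ae (Filter.Eventually.of_forall fun t => ?_)
  simp only [Pi.zero_apply]
  ring

lemma main (hS : SCX) {n : ℕ} {ℓ : ℝ} (hℓ : 0 < ℓ)
    (hE : ∀ (i : Fin n) (s : ℝ), 0 ≤ s → s ≤ ℓ →
      Pf ℓ (0 : Fin n → ℝ) ≤ Pf ℓ (Function.update (0 : Fin n → ℝ) i s)) :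
    ∀ (k : ℕ) (x : Fin n → ℝ), (∀ i, 0 ≤ x i) → (∀ i, x i ≤ ℓ / 2) →
      (Finset.univ.filter fun i => x i ≠ 0).card = k → Pf ℓ (0 : Fin n → ℝ) ≤ Pf ℓ x := by
  intro k
  induction k with
  | zero =>
    intro x _ _ h
    have h1 : x = 0 := by
      ext i
      by_contra hi
      have h2 : i ∈ (Finset.univ.filter fun i => x i ≠ 0) := by simpa using hi
      rw [Finset.card_eq_zero] at h
      rw [h] at h2
      exact absurd h2 (Finset.notMem_empty _)
    rw [h1]
  | succ k ih =>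
    intro x hx0 hx h
    have hne : (Finset.univ.filter fun i => x i ≠ 0).Nonempty := by
      rw [← Finset.card_pos, h]; omega
    obtain ⟨i0, hi0, hmin⟩ := Finset.exists_min_image _ x hne
    rw [Finset.mem_filter] at hi0
    have hpos : 0 < x i0 := lt_of_le_of_ne (hx0 i0) (Ne.symm hi0.2)
    refine le_trans (ih (Function.update x i0 0) ?_ ?_ ?_)
      (step hS hℓ x hx0 hx i0 hpos ?_ (hE i0 (x i0) hpos.le (by linarith [hx i0])))
    · intro i
      by_cases hi : i = i0
      · rw [hi, Function.update_self]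
      · rw [Function.update_of_ne hi]; exact hx0 i
    · intro i
      by_cases hi : i = i0
      · rw [hi, Function.update_self]; linarith
      · rw [Function.update_of_ne hi]; exact hx i
    · have h2 : (Finset.univ.filter fun i => Function.update x i0 0 i ≠ 0) =
          (Finset.univ.filter fun i => x i ≠ 0).erase i0 := by
        ext i
        rw [Finset.mem_erase, Finset.mem_filter, Finset.mem_filter]
        by_cases hi : i = i0
        · rw [hi, Function.update_self]; simp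
        · rw [Function.update_of_ne hi]; simp [hi]
      rw [h2, Finset.card_erase_of_mem (Finset.mem_filter.2 hi0), h]
      rfl
    · intro i hi
      exact hmin i (Finset.mem_filter.2 ⟨Finset.mem_univ _, hi⟩)

theorem fred : SCX → FRED := by
  intro hS n ℓ hn hℓ hE x hx
  rw [PV_eq, PV_eq]
  have hE' : ∀ (i : Fin n) (s : ℝ), 0 ≤ s → s ≤ ℓ →
      Pf ℓ (0 : Fin n → ℝ) ≤ Pf ℓ (Function.update (0 : Fin n → ℝ) i s) := by
    intro i s hs hsl
    have h1 := hE i s hs hsl
    rw [PV_eq, PV_eq] at h1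
    have h2 : (fun j => (EuclideanSpace.single i s : En n) j) =
        Function.update (0 : Fin n → ℝ) i s := by
      ext j
      by_cases h : j = i
      · rw [h, Function.update_self]; simp
      · rw [Function.update_of_ne h]; simp [h]
    rw [h2] at h1
    exact h1
  set y : Fin n → ℝ := fun i => if x i ≤ ℓ / 2 then x i else ℓ - x i with hy
  have hxy : Pf ℓ (fun i => x i) = Pf ℓ y := by
    unfold Pf
    refine integral_congr_ae (Filter.Eventually.of_forall fun t => ?_)
    simp only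
    refine Finset.prod_congr rfl fun i _ => ?_
    rw [hy]
    simp only
    split_ifs
    · rfl
    · rw [th_symm]
  rw [hxy]
  refine main hS hℓ hE' _ y ?_ ?_ rfl
  · intro i
    rw [hy]
    simp only
    have := hx i
    split_ifs <;> linarith
  · intro i
    rw [hy]
    simp only
    split_ifs <;> linarith

end Pool.Agent.Helper65.MM
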