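import Pool.Agent.Helper70.MM.Goals

open MeasureTheory Set Metric
open scoped ENNReal RealInnerProductSpace Topology
open Pool.Agent.Results.MP_91ee6f_gt

namespace Pool.Agent.Helper65.MM

open Pool.Agent.Helper70.MM

variable {n : ℕ}

lemma singleton_null (ν : Measure (En n)) (p : En n)
    (h : ∫⁻ y, (edist p y)⁻¹ ∂ν < ∞) : ν {p} = 0 := by
  by_contra h0
  have h1 : ∫⁻ y in {p}, (edist p y)⁻¹ ∂ν ≤ ∫⁻ y, (edist p y)⁻¹ ∂ν :=
    setLIntegral_le_lintegral _ _
  rw [lintegral_singleton] at h1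
  rw [edist_self, ENNReal.inv_zero, ENNReal.top_mul h0] at h1
  exact absurd (lt_of_le_of_lt h1 h) (lt_irrefl _)

/-- closed ball of radius `1/m` -/
noncomputable def cb (p : En n) (m : ℕ) : Set (En n) := closedEBall p (m : ℝ≥0∞)⁻¹

lemma cb_anti (p : En n) : Antitone (cb p) := by
  intro a b hab y hy
  have hy' : edist y p ≤ (b : ℝ≥0∞)⁻¹ := hy
  have h2 : (b : ℝ≥0∞)⁻¹ ≤ (a : ℝ≥0∞)⁻¹ := ENNReal.inv_le_inv.2 (by exact_mod_cast hab)
  exact le_trans hy' h2

lemma cb_meas (p : En n) (m : ℕ) : MeasurableSet (cb p m) :=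
  isClosed_closedEBall.measurableSet

lemma small_ball (ν : Measure (En n)) [IsFiniteMeasure ν] (p : En n)
    (h : ∫⁻ y, (edist p y)⁻¹ ∂ν < ∞) :
    Filter.Tendsto (fun m : ℕ => ∫⁻ y in cb p m, (edist p y)⁻¹ ∂ν)
      Filter.atTop (𝓝 0) := by
  refine tendsto_setLIntegral_zero h.ne ?_
  have h1 := tendsto_measure_iInter_atTop (μ := ν) (s := cb p)
    (fun m => (cb_meas p m).nullMeasurableSet) (cb_anti p) ⟨0, measure_ne_top _ _⟩
  have h2 : (⋂ m, cb p m) = {p} := by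
    ext y
    simp only [mem_iInter, mem_singleton_iff]
    constructor
    · intro hy
      have h3 : edist y p ≤ 0 :=
        ge_of_tendsto' ENNReal.tendsto_inv_nat_nhds_zero (fun m => hy m)
      exact edist_le_zero.1 h3
    · rintro rfl m
      exact mem_closedEBall_self
  rw [h2, singleton_null ν p h] at h1
  exact h1

lemma piece (ν : Measure (En n)) (p : En n) (m : ℕ) (t : Set (En n)) (η : ℝ≥0∞)
    (hν : ν {p} = 0) (hp : p ∈ t) (hd : ediam t ≤ (m : ℝ≥0∞)⁻¹) (hf : ediam t ≠ ∞)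
    (hI : ∫⁻ y in cb p m, (edist p y)⁻¹ ∂ν ≤ η) : ν t ≤ ediam t * η := by
  have h1 : t ⊆ closedEBall p (ediam t) := fun y hy => edist_le_ediam_of_mem hy hp
  rcases eq_or_ne (ediam t) 0 with h0 | h0
  · have h2 : t ⊆ {p} := by
      intro y hy
      have := h1 hy
      rw [h0] at this
      exact edist_le_zero.1 this
    rw [measure_mono_null h2 hν]
    exact zero_le
  · calc ν t ≤ ν (closedEBall p (ediam t)) := measure_mono h1
      _ = ∫⁻ y in closedEBall p (ediam t), 1 ∂ν := by rw [setLIntegral_one]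
      _ ≤ ∫⁻ y in closedEBall p (ediam t), ediam t * (edist p y)⁻¹ ∂ν := by
          refine setLIntegral_mono' isClosed_closedEBall.measurableSet ?_
          intro y hy
          have hy' : edist p y ≤ ediam t := by rw [edist_comm]; exact hy
          rw [← ENNReal.mul_inv_cancel h0 hf]
          gcongr
      _ = ediam t * ∫⁻ y in closedEBall p (ediam t), (edist p y)⁻¹ ∂ν := by
          rw [lintegral_const_mul' _ _ hf]
      _ ≤ ediam t * ∫⁻ y in cb p m, (edist p y)⁻¹ ∂ν := by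
          gcongr
          exact fun y hy => le_trans hy hd
      _ ≤ ediam t * η := by gcongr

lemma level (ν : Measure (En n)) (B : Set (En n)) (hB : μH[1] B < ∞) (m : ℕ)
    (η : ℝ≥0∞) (hν : ∀ p ∈ B, ν {p} = 0)
    (hI : ∀ p ∈ B, ∫⁻ y in cb p (m + 1), (edist p y)⁻¹ ∂ν ≤ η) :
    ν B ≤ (μH[1] B + 1) * η := by
  have h1 : μH[1] B < μH[1] B + 1 := ENNReal.lt_add_right hB.ne one_ne_zero
  have h2 := h1
  conv_lhs at h2 => rw [Measure.hausdorffMeasure_apply]
  rw [iSup_lt_iff] at h2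
  obtain ⟨b, hb, h2⟩ := h2
  have h3 := h2 ((m + 1 : ℕ) : ℝ≥0∞)⁻¹
  have h4 := lt_of_le_of_lt (le_trans (le_iSup _ (ENNReal.inv_pos.2 (ENNReal.natCast_ne_top _))) h3) hb
  obtain ⟨t, h4⟩ := iInf_lt_iff.1 h4
  obtain ⟨ht, h4⟩ := iInf_lt_iff.1 h4
  obtain ⟨hd, h4⟩ := iInf_lt_iff.1 h4
  have h5 : ∀ k, ν (B ∩ t k) ≤ (⨆ _ : (t k).Nonempty, ediam (t k) ^ (1 : ℝ)) * η := by
    intro k
    rcases (B ∩ t k).eq_empty_or_nonempty with h6 | ⟨p, hp⟩
    · rw [h6, measure_empty]; exact zero_le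
    · have h7 := piece ν p (m + 1) (t k) η (hν p hp.1) hp.2 (hd k)
        (ne_top_of_le_ne_top (ENNReal.inv_ne_top.2 (by simp)) (hd k)) (hI p hp.1)
      have h8 : ediam (t k) ≤ ⨆ _ : (t k).Nonempty, ediam (t k) ^ (1 : ℝ) := by
        refine le_trans ?_ (le_iSup _ ⟨p, hp.2⟩)
        rw [ENNReal.rpow_one]
      exact le_trans (measure_mono inter_subset_right) (le_trans h7 (by gcongr))
  calc ν B ≤ ν (⋃ k, B ∩ t k) := by
        refine measure_mono ?_
        rw [← inter_iUnion]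
        exact subset_inter (le_refl _) ht
    _ ≤ ∑' k, ν (B ∩ t k) := measure_iUnion_le _
    _ ≤ ∑' k, (⨆ _ : (t k).Nonempty, ediam (t k) ^ (1 : ℝ)) * η := ENNReal.tsum_le_tsum h5
    _ = (∑' k, ⨆ _ : (t k).Nonempty, ediam (t k) ^ (1 : ℝ)) * η := ENNReal.tsum_mul_right
    _ ≤ (μH[1] B + 1) * η := by
        gcongr

lemma core (ν : Measure (En n)) [IsFiniteMeasure ν] (B : Set (En n)) (hB : μH[1] B < ∞)
    (h : ∀ p ∈ B, ∫⁻ y, (edist p y)⁻¹ ∂ν < ∞) : ν B = 0 := by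
  have hM : μH[1] B + 1 ≠ ∞ := ENNReal.add_ne_top.2 ⟨hB.ne, ENNReal.one_ne_top⟩
  have key : ∀ η : ℝ≥0∞, 0 < η → ν B ≤ (μH[1] B + 1) * η := by
    intro η hη
    set C : ℕ → Set (En n) := fun m => {p | p ∈ B ∧ ∫⁻ y in cb p (m + 1), (edist p y)⁻¹ ∂ν ≤ η}
      with hC
    have hmono : Monotone C := by
      intro a b hab p hp
      refine ⟨hp.1, le_trans ?_ hp.2⟩
      exact lintegral_mono_set (cb_anti p (by omega))
    have hU : B = ⋃ m, C m := by
      ext p
      constructor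
      · intro hp
        have h1 := (small_ball ν p (h p hp)).comp (Filter.tendsto_add_atTop_nat 1)
        have h2 := h1.eventually (gt_mem_nhds hη)
        obtain ⟨m, hm⟩ := h2.exists
        exact mem_iUnion.2 ⟨m, hp, hm.le⟩
      · intro hp
        obtain ⟨m, hm⟩ := mem_iUnion.1 hp
        exact hm.1
    rw [show ν B = ν (⋃ m, C m) from congrArg ν hU, hmono.measure_iUnion]
    refine iSup_le fun m => ?_
    have hsub : C m ⊆ B := fun p hp => hp.1
    refine le_trans (level ν (C m) (lt_of_le_of_lt (measure_mono hsub) hB) m η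
      (fun p hp => singleton_null ν p (h p hp.1)) (fun p hp => hp.2)) ?_
    gcongr
  by_contra h0
  have h1 : 0 < ν B := pos_iff_ne_zero.2 h0
  have h2 : Filter.Tendsto (fun η : ℝ≥0∞ => (μH[1] B + 1) * η) (𝓝[>] 0) (𝓝 0) := by
    have h3 : Filter.Tendsto (fun η : ℝ≥0∞ => (μH[1] B + 1) * η) (𝓝 0)
        (𝓝 ((μH[1] B + 1) * 0)) := ENNReal.Tendsto.const_mul Filter.tendsto_id (Or.inr hM)
    rw [mul_zero] at h3
    exact h3.mono_left nhdsWithin_le_nhds
  have h4 : ν B ≤ 0 := by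
    refine ge_of_tendsto h2 ?_
    filter_upwards [self_mem_nhdsWithin] with η hη
    exact key η hη
  exact absurd (lt_of_lt_of_le h1 h4) (lt_irrefl _)

theorem haus : HAUS := by
  intro n ν hν A hA h
  obtain ⟨T, hT, hfin⟩ := hA
  have h1 : ∀ i, ν (A ∩ T i ∩ ν.support) = 0 := by
    intro i
    refine core ν _ (lt_of_le_of_lt (measure_mono ?_) (hfin i)) ?_
    · exact fun y hy => hy.1.2
    · exact fun p hp => h p hp.1.1 hp.2
  have h2 : ν ν.supportᶜ = 0 := Measure.measure_compl_support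
  refine measure_mono_null ?_ (measure_union_null (measure_iUnion_null h1) h2)
  intro y hy
  by_cases hs : y ∈ ν.support
  · left
    obtain ⟨i, hi⟩ := mem_iUnion.1 (hT hy)
    exact mem_iUnion.2 ⟨i, ⟨hy, hi⟩, hs⟩
  · exact Or.inr hs

end Pool.Agent.Helper65.MM
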