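import Pool.Agent.Helper70.MM.Goals5

/-!
# The potential of a rotation invariant measure
-/

open MeasureTheory Set Metric Filter
open scoped ENNReal RealInnerProductSpace Topology
open Pool.Agent.Results.MP_91ee6f_gt
open Pool.Agent.Helper70.MM
open Pool.Agent.Helper67.MaxMeas (bil)

namespace Pool.Agent.Helper65.MM

variable {n : ℕ}

lemma bil_symm (μ ν : Measure (En n)) [IsFiniteMeasure μ] [IsFiniteMeasure ν] :
    ∫ x, potential ν x ∂μ = ∫ x, potential μ x ∂ν := by
  unfold potential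
  rw [integral_integral_swap]
  · simp_rw [dist_comm]
  · have hc : Continuous (Function.uncurry fun x y : En n => Real.exp (-dist x y)) := by
      simp only [Function.uncurry_def]
      fun_prop
    refine Integrable.mono' (g := fun _ => (1 : ℝ)) (integrable_const _)
      hc.aestronglyMeasurable (Eventually.of_forall fun z => ?_)
    exact Pool.Agent.Helper61.MM.exp_neg_dist_bound z.1 z.2

lemma norm_smul_unit {e : En n} (he : ‖e‖ = 1) {r : ℝ} (hr : 0 ≤ r) : ‖r • e‖ = r := by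
  rw [norm_smul, he, mul_one, Real.norm_of_nonneg hr]

/-- the average of a radial potential over a sphere -/
lemma avg_sphere (hn : 2 ≤ n) (w : Measure (En n))
    (hw : ∀ g : En n ≃ₗᵢ[ℝ] En n, w.map g = w) {e : En n} (he : ‖e‖ = 1) {r : ℝ} (hr : 0 ≤ r) :
    ∫ x, potential w x ∂(sphUnif n r) = potential w (r • e) := by
  obtain ⟨hp, hs, -⟩ := fSPH1 n (by omega) r
  have h1 : ∀ᵐ x ∂(sphUnif n r), potential w x = potential w (r • e) :=
    (hs hr).mono fun x hx =>
      Pool.Agent.Helper27.MM.potential_radial w hw x (r • e)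
        (hx.trans (norm_smul_unit he hr).symm)
  rw [integral_congr_ae h1]
  simp

lemma PP_symm (hn : 2 ≤ n) {e : En n} (he : ‖e‖ = 1) {s r : ℝ} (hs : 0 ≤ s) (hr : 0 ≤ r) :
    PP e s r = PP e r s := by
  obtain ⟨hp1, -, -⟩ := fSPH1 n (by omega) r
  obtain ⟨hp2, -, -⟩ := fSPH1 n (by omega) s
  have h1 := avg_sphere hn (sphUnif n s) (fSPH2 n s).1 he hr
  have h2 := avg_sphere hn (sphUnif n r) (fSPH2 n r).1 he hs
  unfold PP
  rw [← h1, ← h2]
  exact bil_symm _ _

lemma PP_norm_eq (hn : 2 ≤ n) {e : En n} (he : ‖e‖ = 1) {r : ℝ} (hr : 0 ≤ r) (y : En n) :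
    PP e ‖y‖ r = potential (sphUnif n r) y := by
  rw [PP_symm hn he (norm_nonneg y) hr]
  unfold PP
  exact Pool.Agent.Helper27.MM.potential_radial _ (fSPH2 n r).1 _ _
    (norm_smul_unit he (norm_nonneg y))

lemma potential_eq_integral_PP (hn : 2 ≤ n) (w : Measure (En n)) [IsFiniteMeasure w]
    (hw : ∀ g : En n ≃ₗᵢ[ℝ] En n, w.map g = w) {e : En n} (he : ‖e‖ = 1) {r : ℝ} (hr : 0 ≤ r) :
    potential w (r • e) = ∫ y, PP e ‖y‖ r ∂w := by
  obtain ⟨hp, -, -⟩ := fSPH1 n (by omega) r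
  rw [← avg_sphere hn w hw he hr, bil_symm]
  refine integral_congr_ae (Eventually.of_forall fun y => ?_)
  exact (PP_norm_eq hn he hr y).symm

lemma continuous_PP_norm (hn : 2 ≤ n) {e : En n} (he : ‖e‖ = 1) {r : ℝ} (hr : 0 ≤ r) :
    Continuous fun y : En n => PP e ‖y‖ r := by
  obtain ⟨hp, -, -⟩ := fSPH1 n (by omega) r
  have h : (fun y : En n => PP e ‖y‖ r) = potential (sphUnif n r) :=
    funext fun y => PP_norm_eq hn he hr y
  rw [h]
  exact Pool.Agent.Helper61.MM.continuous_potential_En _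

lemma abs_PP_le (hn : 2 ≤ n) {e : En n} (s r : ℝ) : |PP e s r| ≤ 1 := by
  obtain ⟨hp, -, -⟩ := fSPH1 n (by omega) s
  unfold PP potential
  have := norm_integral_le_of_norm_le_const (μ := sphUnif n s) (C := 1)
    (f := fun y => Real.exp (-dist (r • e) y))
    (Filter.Eventually.of_forall fun y => Pool.Agent.Helper61.MM.exp_neg_dist_bound _ _)
  simpa using this

lemma integrable_PP_norm (hn : 2 ≤ n) (w : Measure (En n)) [IsFiniteMeasure w] {e : En n}
    (he : ‖e‖ = 1) {r : ℝ} (hr : 0 ≤ r) : Integrable (fun y => PP e ‖y‖ r) w := by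
  refine Integrable.mono' (g := fun _ => (1 : ℝ)) (integrable_const _)
    (continuous_PP_norm hn he hr).aestronglyMeasurable (Eventually.of_forall fun z => ?_)
  exact abs_PP_le hn _ _

lemma aesm_PD (hP : PDER) (hn : 2 ≤ n) (w : Measure (En n)) {e : En n}
    (he : ‖e‖ = 1) {r : ℝ} (hr : 0 < r) : AEStronglyMeasurable (fun y => PD e ‖y‖ r) w := by
  have hseq : Tendsto (fun k : ℕ => 1 / ((k : ℝ) + 1)) atTop (𝓝[≠] 0) := by
    refine tendsto_nhdsWithin_iff.2 ⟨tendsto_one_div_add_atTop_nhds_zero_nat,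
      Eventually.of_forall fun k => ?_⟩
    have : (0 : ℝ) < 1 / ((k : ℝ) + 1) := by positivity
    exact this.ne'
  refine aestronglyMeasurable_of_tendsto_ae atTop
    (f := fun (k : ℕ) (y : En n) => (1 / ((k : ℝ) + 1))⁻¹ •
      (PP e ‖y‖ (r + 1 / ((k : ℝ) + 1)) - PP e ‖y‖ r)) ?_ ?_
  · intro k
    have h0 : (0 : ℝ) < 1 / ((k : ℝ) + 1) := by positivity
    have h1 := (continuous_PP_norm hn he (r := r + 1 / ((k : ℝ) + 1)) (by linarith)).sub
      (continuous_PP_norm hn he hr.le)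
    exact (h1.const_smul ((1 / ((k : ℝ) + 1))⁻¹)).aestronglyMeasurable
  · refine Eventually.of_forall fun y => ?_
    have h2 := ((hP n hn e he ‖y‖ (norm_nonneg y)).1 r hr).1
    exact (hasDerivAt_iff_tendsto_slope_zero.1 h2).comp hseq

theorem radw : PDER → RADW := by
  intro hP n hn w hwf hw e he
  refine ⟨fun r hr => potential_eq_integral_PP hn w hw he hr, fun r hr => ?_⟩
  have hmem : Ioi (0 : ℝ) ∈ 𝓝 r := Ioi_mem_nhds hr
  have key := hasDerivAt_integral_of_dominated_loc_of_deriv_le (μ := w) (𝕜 := ℝ)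
    (F := fun (x : ℝ) (y : En n) => PP e ‖y‖ x) (F' := fun (x : ℝ) (y : En n) => PD e ‖y‖ x)
    (x₀ := r) (s := Ioi 0) (bound := fun _ => (1 : ℝ)) hmem
    (by
      filter_upwards [hmem] with x hx
      exact (continuous_PP_norm hn he (le_of_lt hx)).aestronglyMeasurable)
    (integrable_PP_norm hn w he hr.le)
    (aesm_PD hP hn w he hr)
    (Eventually.of_forall fun y x hx => ((hP n hn e he ‖y‖ (norm_nonneg y)).1 x hx).2)
    (integrable_const _)
    (Eventually.of_forall fun y x hx => ((hP n hn e he ‖y‖ (norm_nonneg y)).1 x hx).1)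
  refine ⟨key.1, key.2.congr_of_eventuallyEq ?_⟩
  filter_upwards [hmem] with x hx
  exact potential_eq_integral_PP hn w hw he (le_of_lt hx)

end Pool.Agent.Helper65.MM
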